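import Pool.Agent.TH682.LO.Defs
import Pool.Agent.TH682.KD.Sim

/-!
# Composition of reductions, with complete tables
-/

set_option autoImplicit false

namespace Pool.Agent.TH682.LO

open Pool.Agent.NPC Pool.Agent.TH682.GD Pool.Agent.H660R2.NX Pool.Agent.H579R2.Spt
open Pool.Agent.TH682.KD

/-- Uniqueness of the complete correct history. -/
theorem correct_unique {f : List Bool → List Bool} {A : Set (List Bool)} {h h' : List Bool}
    (h1 : Correct f A h) (h2 : Correct f A h') (h3 : ∀ q, f h ≠ false :: q)
    (h4 : ∀ q, f h' ≠ false :: q) : h = h' := by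
  have key : ∀ i, i ≤ h.length → i ≤ h'.length → h.take i = h'.take i := by
    intro i
    induction i with
    | zero => intro _ _; simp
    | succ i ih =>
      intro a b
      have h5 := ih (by omega) (by omega)
      obtain ⟨q, h6, h7⟩ := h1 i (by omega)
      obtain ⟨q', h8, h9⟩ := h2 i (by omega)
      rw [h5, h8] at h6
      simp only [List.cons.injEq, true_and] at h6
      subst h6
      rw [List.take_succ_eq_append_getElem (by omega), List.take_succ_eq_append_getElem (by omega),
        h5]
      congr 2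
      rw [Bool.eq_iff_iff, h7, h9]
  rcases Nat.lt_trichotomy h.length h'.length with h5 | h5 | h5
  · exfalso
    have h6 := key h.length le_rfl h5.le
    rw [List.take_length] at h6
    obtain ⟨q, h7, _⟩ := h2 h.length h5
    rw [← h6] at h7
    exact h3 q h7
  · have h6 := key h.length le_rfl h5.le
    rw [List.take_length] at h6
    rw [h6, h5, List.take_length]
  · exfalso
    have h6 := key h'.length h5.le le_rfl
    rw [List.take_length] at h6
    obtain ⟨q, h7, _⟩ := h1 h'.length h5
    rw [h6] at h7
    exact h4 q h7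

/-- Check of a certificate for a query. -/
def cq (D : List Bool × (List (List ℕ) × List Bool) → Bool) (p s : Polynomial ℕ)
    (q : List Bool) (T : List (List ℕ)) (c : List Bool) : Bool :=
  decide (c.length ≤ s.eval q.length) && D (q, (cut (p.eval q.length) T, c))

theorem cq_poly {α : Type} [TEnc α] {D : List Bool × (List (List ℕ) × List Bool) → Bool}
    (hD : Poly D) (p s : Polynomial ℕ) {q c : α → List Bool} {T : α → List (List ℕ)}
    (hq : Poly q) (hT : Poly T) (hc : Poly c) : Poly (fun a => cq D p s (q a) (T a) (c a)) :=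
  NPC.Poly.and (NPC.Poly.decide_le (NPC.Poly.length hc) ((UPoly.length hq).eval s).toPoly)
    (hD.comp (NPC.Poly.pair hq (NPC.Poly.pair (cut_poly ((UPoly.length hq).eval p).toPoly hT) hc)))

/-- Certificates: a certificate, the answers, and certificates for the answers. -/
abbrev Cr := List Bool × (List Bool × List (List Bool))

/-- Decoding of certificates. -/
def dr (u : List Bool) : Cr := (unbits Cr u).getD ([], ([], []))

theorem dr_bits (c : Cr) : dr (bits c) = c := by
  rw [dr, unbits_bits]
  rfl

theorem dr_poly : Poly dr := NPC.Poly.optGetD poly_unbits (NPC.Poly.const _)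

/-- The check of the answers. -/
def ca (f : List Bool → List Bool) (D1 D0 : List Bool × (List (List ℕ) × List Bool) → Bool)
    (p1 s1 p0 s0 : Polynomial ℕ) (y : List Bool) (T : List (List ℕ)) (h : List Bool)
    (cs : List (List Bool)) (i : ℕ) : Bool :=
  decide ((alg f y [] (h.take i)).head? = some false) &&
    (if h.getD i false = true then cq D1 p1 s1 (alg f y [] (h.take i)).tail T (cs.getD i [])
      else cq D0 p0 s0 (alg f y [] (h.take i)).tail T (cs.getD i []))

/-- The check of a certificate. -/
def cd (f : List Bool → List Bool) (D1 D0 : List Bool × (List (List ℕ) × List Bool) → Bool)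
    (p1 s1 p0 s0 s r : Polynomial ℕ) (c : List Bool × (List (List ℕ) × Cr)) : Bool :=
  decide (c.2.2.1.length ≤ s.eval c.1.length) &&
    (decide (c.2.2.2.1.length ≤ r.eval (pairBits c.1 c.2.2.1).length) &&
      ((List.range c.2.2.2.1.length).all (fun i =>
        ca f D1 D0 p1 s1 p0 s0 (pairBits c.1 c.2.2.1) c.2.1 c.2.2.2.1 c.2.2.2.2 i) &&
          decide (alg f (pairBits c.1 c.2.2.1) [] c.2.2.2.1 = [true])))

theorem cd_poly {f : List Bool → List Bool} (hf : Poly f)
    {D1 D0 : List Bool × (List (List ℕ) × List Bool) → Bool} (h1 : Poly D1) (h0 : Poly D0)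
    (p1 s1 p0 s0 s r : Polynomial ℕ) : Poly (cd f D1 D0 p1 s1 p0 s0 s r) := by
  have e1 : Poly (fun c : List Bool × (List (List ℕ) × Cr) => c.1) := NPC.Poly.fst NPC.Poly.id
  have e2 : Poly (fun c : List Bool × (List (List ℕ) × Cr) => c.2.1) :=
    NPC.Poly.fst (NPC.Poly.snd NPC.Poly.id)
  have e3 : Poly (fun c : List Bool × (List (List ℕ) × Cr) => c.2.2.1) :=
    NPC.Poly.fst (NPC.Poly.snd (NPC.Poly.snd NPC.Poly.id))
  have e4 : Poly (fun c : List Bool × (List (List ℕ) × Cr) => c.2.2.2.1) :=
    NPC.Poly.fst (NPC.Poly.snd (NPC.Poly.snd (NPC.Poly.snd NPC.Poly.id)))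
  have e5 : Poly (fun c : List Bool × (List (List ℕ) × Cr) => c.2.2.2.2) :=
    NPC.Poly.snd (NPC.Poly.snd (NPC.Poly.snd (NPC.Poly.snd NPC.Poly.id)))
  have e6 := Pool.Agent.H622R2.poly_pairBits e1 e3
  refine NPC.Poly.and (NPC.Poly.decide_le (NPC.Poly.length e3) ((UPoly.length e1).eval s).toPoly)
    (NPC.Poly.and (NPC.Poly.decide_le (NPC.Poly.length e4) ((UPoly.length e6).eval r).toPoly)
      (NPC.Poly.and ?_ (NPC.Poly.decide_eq (alg_poly hf e6 e4) (NPC.Poly.const _))))
  refine NPC.Poly.all (l := fun c : List Bool × (List (List ℕ) × Cr) =>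
    List.range c.2.2.2.1.length) (p := fun c i =>
      ca f D1 D0 p1 s1 p0 s0 (pairBits c.1 c.2.2.1) c.2.1 c.2.2.2.1 c.2.2.2.2 i)
    (UPoly.length e4).range ?_
  have g0 : Poly (fun q : (List Bool × (List (List ℕ) × Cr)) × ℕ => q.1) :=
    NPC.Poly.fst NPC.Poly.id
  have gi : Poly (fun q : (List Bool × (List (List ℕ) × Cr)) × ℕ => q.2) :=
    NPC.Poly.snd NPC.Poly.id
  have g2 := e2.comp g0
  have g4 := e4.comp g0
  have g5 := e5.comp g0
  have g6 := e6.comp g0
  have g7 := alg_poly hf g6 (take_poly' g4 gi)
  have g8 := NPC.Poly.getD g5 gi (NPC.Poly.const [])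
  exact NPC.Poly.and (NPC.Poly.decide_eq (NPC.Poly.head? g7) (NPC.Poly.const _))
    (NPC.Poly.ite (NPC.Poly.decide_eq (NPC.Poly.getD g4 gi (NPC.Poly.const false))
      (NPC.Poly.const true)) (cq_poly h1 p1 s1 (NPC.Poly.tail g7) g2 g8)
        (cq_poly h0 p0 s0 (NPC.Poly.tail g7) g2 g8))

variable {G : Set (List Bool)}

/-- **Composition.** -/
theorem inNY_comp {A : Set (List Bool)} (hA : InNY G A) (hAc : InNY G Aᶜ) {L : Set (List Bool)}
    (hL : InNPT A L) : InNY G L := by
  classical
  obtain ⟨D1, p1, s1, hD1, hA1⟩ := hA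
  obtain ⟨D0, p0, s0, hD0, hA0⟩ := hAc
  obtain ⟨M, s, ⟨f, r, hf, hdec⟩, hLM⟩ := hL
  have hfp : Poly f := PIso.poly_iff.2 hf
  obtain ⟨ql, hql⟩ := PIso.length_bound hfp
  -- length of the pairs, and of the queries
  obtain ⟨Y, hY⟩ : ∃ Y : Polynomial ℕ, ∀ n, Y.eval n = 2 * n + 1 + s.eval n :=
    ⟨Polynomial.C 2 * Polynomial.X + 1 + s, fun n => by
      simp only [Polynomial.eval_add, Polynomial.eval_mul, Polynomial.eval_C, Polynomial.eval_X,
        Polynomial.eval_one]⟩
  obtain ⟨Q, hQ⟩ : ∃ Q : Polynomial ℕ, ∀ n, Q.eval n =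
      ql.eval (4 * Y.eval n + 3 + r.eval (Y.eval n)) :=
    ⟨ql.comp (Polynomial.C 4 * Y + 3 + r.comp Y), fun n => by
      simp only [Polynomial.eval_add, Polynomial.eval_mul, Polynomial.eval_C,
        Polynomial.eval_comp, Polynomial.eval_ofNat]⟩
  obtain ⟨U, hU⟩ : ∃ U : Polynomial ℕ, ∀ n, U.eval n = (4 * s.eval n + 1) +
      ((4 * r.eval (Y.eval n) + 1) + (r.eval (Y.eval n) *
        (4 * (s1.eval (Q.eval n) + s0.eval (Q.eval n)) + 1 + 1) + 1) + 1) + 1 :=
    ⟨(Polynomial.C 4 * s + 1) + ((Polynomial.C 4 * r.comp Y + 1) + (r.comp Y *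
        (Polynomial.C 4 * (s1.comp Q + s0.comp Q) + 1 + 1) + 1) + 1) + 1, fun n => by
      simp only [Polynomial.eval_add, Polynomial.eval_mul, Polynomial.eval_C,
        Polynomial.eval_comp, Polynomial.eval_one]⟩
  have e1 : Poly (fun c : List Bool × (List (List ℕ) × List Bool) => c.1) :=
    NPC.Poly.fst NPC.Poly.id
  have e2 : Poly (fun c : List Bool × (List (List ℕ) × List Bool) => c.2.1) :=
    NPC.Poly.fst (NPC.Poly.snd NPC.Poly.id)
  have e3 : Poly (fun c : List Bool × (List (List ℕ) × List Bool) => dr c.2.2) :=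
    dr_poly.comp (NPC.Poly.snd (NPC.Poly.snd NPC.Poly.id))
  refine ⟨fun c => cd f D1 D0 p1 s1 p0 s0 s r (c.1, (c.2.1, dr c.2.2)),
    p1.comp Q + p0.comp Q, U, (cd_poly hfp hD1 hD0 p1 s1 p0 s0 s r).comp
      (NPC.Poly.pair e1 (NPC.Poly.pair e2 e3)), fun x T hT => ?_⟩
  rw [Polynomial.eval_add, Polynomial.eval_comp, Polynomial.eval_comp] at hT
  have hylen : ∀ w : List Bool, w.length ≤ s.eval x.length →
      (pairBits x w).length ≤ Y.eval x.length := by
    intro w hw
    rw [PIso.pairBits_length, hY]
    omega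
  -- queries are short
  have hqlen : ∀ w h q : List Bool, w.length ≤ s.eval x.length →
      h.length ≤ r.eval (pairBits x w).length → alg f (pairBits x w) [] h = false :: q →
        q.length ≤ Q.eval x.length := by
    intro w h q hw hh hq
    have h1 := hql (pairBits (pairBits (pairBits x w) []) h)
    have h2 : f (pairBits (pairBits (pairBits x w) []) h) = false :: q := hq
    rw [h2, List.length_cons, PIso.pairBits_length, PIso.pairBits_length, List.length_nil] at h1
    have h3 := hylen w hw
    have h4 := eval_mono r h3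
    rw [hQ]
    have h5 : ql.eval (2 * (2 * (pairBits x w).length + 1 + 0) + 1 + h.length) ≤
        ql.eval (4 * Y.eval x.length + 3 + r.eval (Y.eval x.length)) := eval_mono ql (by omega)
    omega
  have hc1 : ∀ q : List Bool, q.length ≤ Q.eval x.length →
      Comp G (p1.eval q.length) (cut (p1.eval q.length) T) := fun q hq =>
    comp_cut hT ((eval_mono p1 hq).trans (Nat.le_add_right _ _))
  have hc0 : ∀ q : List Bool, q.length ≤ Q.eval x.length →
      Comp G (p0.eval q.length) (cut (p0.eval q.length) T) := fun q hq =>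
    comp_cut hT ((eval_mono p0 hq).trans (Nat.le_add_left _ _))
  rw [hLM]
  constructor
  · rintro ⟨w, hw, hwM⟩
    obtain ⟨h, h1, h2, h3, h4⟩ := hdec (pairBits x w)
    have hex : ∀ i, ∃ c : List Bool, i < h.length →
        (c.length ≤ s1.eval (Q.eval x.length) + s0.eval (Q.eval x.length) ∧
        (if h.getD i false = true then
          cq D1 p1 s1 (alg f (pairBits x w) [] (h.take i)).tail T c = true
        else cq D0 p0 s0 (alg f (pairBits x w) [] (h.take i)).tail T c = true)) := by
      intro i
      by_cases hi : i < h.length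
      · obtain ⟨q, h5, h6⟩ := h2 i hi
        have h7 : q.length ≤ Q.eval x.length := hqlen w (h.take i) q hw (by
          rw [List.length_take]
          omega) h5
        rw [List.getD_eq_getElem _ _ hi, h5, List.tail_cons]
        by_cases h8 : h[i] = true
        · obtain ⟨c, hc, hcD⟩ := (hA1 q _ (hc1 q h7)).1 (h6.1 h8)
          refine ⟨c, fun _ => ⟨hc.trans ((eval_mono s1 h7).trans (Nat.le_add_right _ _)), ?_⟩⟩
          rw [if_pos h8]
          unfold cq
          rw [Bool.and_eq_true, decide_eq_true_eq]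
          exact ⟨hc, hcD⟩
        · obtain ⟨c, hc, hcD⟩ := (hA0 q _ (hc0 q h7)).1 (fun h9 => h8 (h6.2 h9))
          refine ⟨c, fun _ => ⟨hc.trans ((eval_mono s0 h7).trans (Nat.le_add_left _ _)), ?_⟩⟩
          rw [if_neg h8]
          unfold cq
          rw [Bool.and_eq_true, decide_eq_true_eq]
          exact ⟨hc, hcD⟩
      · exact ⟨[], fun h => absurd h hi⟩
    choose C hC using hex
    refine ⟨bits (w, (h, (List.range h.length).map C)), ?_, ?_⟩
    · rw [bits_length, sz_pair, sz_pair, hU]
      have h5 := sz_listBool_le w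
      have h6 := sz_listBool_le h
      have h7 := sz_le_length_mul ((List.range h.length).map C)
        (4 * (s1.eval (Q.eval x.length) + s0.eval (Q.eval x.length)) + 1) fun c hc => by
          obtain ⟨i, hi, rfl⟩ := List.mem_map.1 hc
          rw [List.mem_range] at hi
          have h8 := (hC i hi).1
          have h9 := sz_listBool_le (C i)
          omega
      rw [List.length_map, List.length_range] at h7
      have h8 := hylen w hw
      have h9 := eval_mono r h8
      have h10 : h.length ≤ r.eval (Y.eval x.length) := h1.trans h9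
      have h11 := Nat.mul_le_mul_right (4 * (s1.eval (Q.eval x.length) +
        s0.eval (Q.eval x.length)) + 1 + 1) h10
      omega
    · simp only [dr_bits]
      unfold cd
      simp only [Bool.and_eq_true, decide_eq_true_eq, List.all_eq_true, List.mem_range]
      refine ⟨hw, h1, fun i hi => ?_, h4.2 hwM⟩
      unfold ca
      rw [Bool.and_eq_true, decide_eq_true_eq]
      refine ⟨?_, ?_⟩
      · obtain ⟨q, h5, _⟩ := h2 i hi
        rw [h5]
        rfl
      · have h5 : ((List.range h.length).map C).getD i [] = C i := by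
          rw [List.getD_eq_getElem _ _ (by simpa using hi)]
          simp
        rw [h5]
        have h6 := (hC i hi).2
        split_ifs at h6 ⊢ with h7
        · exact h6
        · exact h6
  · rintro ⟨u, _, h1⟩
    unfold cd at h1
    simp only [Bool.and_eq_true, decide_eq_true_eq, List.all_eq_true, List.mem_range] at h1
    obtain ⟨h1, h2, h3, h4⟩ := h1
    set w := (dr u).1 with hw
    set h := (dr u).2.1 with hh
    set cs := (dr u).2.2 with hcs
    refine ⟨w, h1, ?_⟩
    have hcor : Correct (alg f (pairBits x w) []) A h := by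
      intro i hi
      have h5 := h3 i hi
      unfold ca at h5
      rw [Bool.and_eq_true, decide_eq_true_eq] at h5
      obtain ⟨q, h6⟩ := head?_eq.1 h5.1
      have h7 : q.length ≤ Q.eval x.length := hqlen w (h.take i) q h1 (by
        rw [List.length_take]
        omega) h6
      refine ⟨q, h6, ?_⟩
      have h8 := h5.2
      rw [List.getD_eq_getElem _ _ hi, h6, List.tail_cons] at h8
      by_cases h9 : h[i] = true
      · rw [if_pos h9] at h8
        unfold cq at h8
        rw [Bool.and_eq_true, decide_eq_true_eq] at h8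
        exact iff_of_true h9 ((hA1 q _ (hc1 q h7)).2 ⟨_, h8.1, h8.2⟩)
      · rw [if_neg h9] at h8
        unfold cq at h8
        rw [Bool.and_eq_true, decide_eq_true_eq] at h8
        exact iff_of_false h9 ((hA0 q _ (hc0 q h7)).2 ⟨_, h8.1, h8.2⟩)
    obtain ⟨h', k1, k2, k3, k4⟩ := hdec (pairBits x w)
    have h5 : h = h' := correct_unique hcor k2 (fun q hq => by
      rw [h4] at hq
      simp at hq) k3
    rw [← k4, ← h5]
    exact h4

end Pool.Agent.TH682.LO
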