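import Pool.Agent.TH682.KD.Defs

/-!
# Low sets
-/

set_option autoImplicit false

namespace Pool.Agent.TH682.LO

open Pool.Agent.NPC Pool.Agent.TH682.KD Pool.Agent.H660R2.NX

/-- The class `P^(NP^A)`: polynomially many queries to an oracle in `NP^A`. -/
def InPNPT (A L : Set (List Bool)) : Prop :=
  ∃ (f : List Bool → List Bool) (B : Set (List Bool)) (r : Polynomial ℕ),
    PolyTime f ∧ InNPT A B ∧ ∀ x : List Bool, Decides (alg f x []) B (r.eval x.length) (x ∈ L)

/-- The class `P^(NP^A)[O(log n)]`: the same with `O(log n)` queries. -/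
def InPNPTLog (A L : Set (List Bool)) : Prop :=
  ∃ (f : List Bool → List Bool) (B : Set (List Bool)) (c : ℕ),
    PolyTime f ∧ InNPT A B ∧
      ∀ x : List Bool, Decides (alg f x []) B (c * (Nat.log 2 x.length + 1)) (x ∈ L)

/-- The class `L_1` of the low hierarchy: `A ∈ NP` and `NP^A ⊆ NP`. -/
def LowOne : Set (Set (List Bool)) := {A | InNP A ∧ ∀ L, InNPT A L → InNP L}

/-- The class `L̂_2` of the refined low hierarchy: `A ∈ NP` and `P^(NP^A) ⊆ P^NP`. -/
def LowHatTwo : Set (Set (List Bool)) := {A | InNP A ∧ ∀ L, InPNPT A L → InPNP L}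

end Pool.Agent.TH682.LO
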