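import Pool.Agent.TH682.LO.Comp
import Pool.Agent.TH682.KD.Log

/-!
# Polynomially many questions with one count
-/

set_option autoImplicit false

namespace Pool.Agent.TH682.LO

open Pool.Agent.NPC Pool.Agent.TH682.GD Pool.Agent.H660R2.NX Pool.Agent.H579R2.Spt
open Pool.Agent.TH682.KD

variable {G : Set (List Bool)} {H : ∀ N : ℕ, Subgroup (Equiv.Perm (Fin N))}

/-- Inputs of the questions: an input, the kind of the question, and a query. -/
abbrev In := List Bool × (Bool × List Bool)

/-- The questions: is there a valid table with at least so many entries (and such that the query is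
answered by yes, with this table)? -/
def Ask2 (G : Set (List Bool)) (D : List Bool × (List (List ℕ) × List Bool) → Bool)
    (p s pm : Polynomial ℕ) (c : In × List Bool) : Prop :=
  ∃ T : List (List ℕ), Valid G (pm.eval c.1.1.length) T ∧ nv (pd (tt pm c.1.1) c.2) ≤ T.length ∧
    (c.1.2.1 = false ∨ ∃ w : List Bool, w.length ≤ s.eval c.1.2.2.length ∧
      D (c.1.2.2, (cut (p.eval c.1.2.2.length) T, w)) = true)

/-- The check of a certificate. -/
def chk2 (D : List Bool × (List (List ℕ) × List Bool) → Bool) (p s pm pG : Polynomial ℕ)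
    (V : List Bool → List Bool) (r : (In × List Bool) × Wit) : Bool :=
  r.2.1.all (fun q => decide (q.2.length ≤ pG.eval (bits q.1).length) &&
    (decide (V (pairBits (bits q.1) q.2) = [true]) &&
      (decide (q.1.length < pm.eval r.1.1.1.length) && !decide (key q.1 = none)))) &&
    (ndB ((r.2.1.map Prod.fst).map kk) && (decide (nv (pd (tt pm r.1.1.1) r.1.2) ≤ r.2.1.length) &&
      (!r.1.1.2.1 || (decide (r.2.2.length ≤ s.eval r.1.1.2.2.length) &&
        D (r.1.1.2.2, (cut (p.eval r.1.1.2.2.length) (r.2.1.map Prod.fst), r.2.2))))))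

theorem chk2_poly {D : List Bool × (List (List ℕ) × List Bool) → Bool} (hD : Poly D)
    (p s pm pG : Polynomial ℕ) {V : List Bool → List Bool} (hV : Poly V) :
    Poly (chk2 D p s pm pG V) := by
  have e1 : Poly (fun r : (In × List Bool) × Wit => r.1.1.1) :=
    NPC.Poly.fst (NPC.Poly.fst (NPC.Poly.fst NPC.Poly.id))
  have eb : Poly (fun r : (In × List Bool) × Wit => r.1.1.2.1) :=
    NPC.Poly.fst (NPC.Poly.snd (NPC.Poly.fst (NPC.Poly.fst NPC.Poly.id)))
  have eq : Poly (fun r : (In × List Bool) × Wit => r.1.1.2.2) :=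
    NPC.Poly.snd (NPC.Poly.snd (NPC.Poly.fst (NPC.Poly.fst NPC.Poly.id)))
  have e2 : Poly (fun r : (In × List Bool) × Wit => r.1.2) :=
    NPC.Poly.snd (NPC.Poly.fst NPC.Poly.id)
  have e3 : Poly (fun r : (In × List Bool) × Wit => r.2.1) :=
    NPC.Poly.fst (NPC.Poly.snd NPC.Poly.id)
  have e5 : Poly (fun r : (In × List Bool) × Wit => r.2.2) :=
    NPC.Poly.snd (NPC.Poly.snd NPC.Poly.id)
  have e4 : Poly (fun r : (In × List Bool) × Wit => r.2.1.map Prod.fst) :=
    NPC.Poly.map (l := fun r : (In × List Bool) × Wit => r.2.1)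
      (F := fun _ (q : List ℕ × List Bool) => q.1) e3 (NPC.Poly.fst (NPC.Poly.snd NPC.Poly.id))
  refine NPC.Poly.and ?_ (NPC.Poly.and (ndB_poly ?_) (NPC.Poly.and ?_ (NPC.Poly.or
    (NPC.Poly.not eb) (NPC.Poly.and ?_ ?_))))
  · refine NPC.Poly.all (l := fun r : (In × List Bool) × Wit => r.2.1)
      (p := fun r q => decide (q.2.length ≤ pG.eval (bits q.1).length) &&
        (decide (V (pairBits (bits q.1) q.2) = [true]) &&
          (decide (q.1.length < pm.eval r.1.1.1.length) && !decide (key q.1 = none)))) e3 ?_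
    have a1 : Poly (fun s : ((In × List Bool) × Wit) × (List ℕ × List Bool) => s.2.1) :=
      NPC.Poly.fst (NPC.Poly.snd NPC.Poly.id)
    have a2 : Poly (fun s : ((In × List Bool) × Wit) × (List ℕ × List Bool) => s.2.2) :=
      NPC.Poly.snd (NPC.Poly.snd NPC.Poly.id)
    have a3 : Poly (fun s : ((In × List Bool) × Wit) × (List ℕ × List Bool) =>
        bits s.2.1) := bits_poly.comp a1
    have a4 : Poly (fun s : ((In × List Bool) × Wit) × (List ℕ × List Bool) =>
        s.1.1.1.1) := e1.comp (NPC.Poly.fst NPC.Poly.id)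
    exact NPC.Poly.and (NPC.Poly.decide_le (NPC.Poly.length a2) ((UPoly.length a3).eval pG).toPoly)
      (NPC.Poly.and (NPC.Poly.decide_eq (hV.comp (Pool.Agent.H622R2.poly_pairBits a3 a2))
        (NPC.Poly.const _)) (NPC.Poly.and (NPC.Poly.decide_lt (NPC.Poly.length a1)
          ((UPoly.length a4).eval pm).toPoly) (NPC.Poly.not (NPC.Poly.decide_eq (key_poly a1)
            (NPC.Poly.const none)))))
  · exact NPC.Poly.map (l := fun r : (In × List Bool) × Wit => r.2.1.map Prod.fst)
      (F := fun _ v => kk v) e4 (kk_poly (NPC.Poly.snd NPC.Poly.id))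
  · exact NPC.Poly.decide_le (nv_poly (pd_poly (tt_upoly pm e1) e2)) (NPC.Poly.length e3)
  · exact NPC.Poly.decide_le (NPC.Poly.length e5) ((UPoly.length eq).eval s).toPoly
  · exact hD.comp (NPC.Poly.pair eq (NPC.Poly.pair (cut_poly ((UPoly.length eq).eval p).toPoly e4)
      e5))

/-- **The questions are in `NP`.** -/
theorem ask2_inNP (hG : ∀ z : List Bool, z ∈ G ↔ ∃ (N : ℕ) (σ : Equiv.Perm (Fin N)),
    σ ∈ H N ∧ z = bits (vals σ)) (hGN : InNP G)
    {D : List Bool × (List (List ℕ) × List Bool) → Bool}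
    (hD : Poly D) (p s pm : Polynomial ℕ) : InNP (lang (Ask2 G D p s pm)) := by
  obtain ⟨V, pG, hV, hVG⟩ := hGN
  have hVp : Poly V := PIso.poly_iff.2 hV
  set dc : List Bool → In × List Bool := fun z =>
    (unbits (In × List Bool) z).getD (([], (false, [])), []) with hdc
  set dw : List Bool → Wit := fun z => (unbits Wit z).getD ([], []) with hdw
  have hdcp : Poly dc := NPC.Poly.optGetD poly_unbits (NPC.Poly.const _)
  have hdwp : Poly dw := NPC.Poly.optGetD poly_unbits (NPC.Poly.const _)
  obtain ⟨Q, hQ⟩ : ∃ Q : Polynomial ℕ, ∀ m, Q.eval m =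
      m ^ 3 * (eB m + (4 * pG.eval (eB m) + 1) + 1 + 1) + 1 :=
    ⟨Polynomial.X ^ 3 * ((Polynomial.X * (Polynomial.C 4 * Polynomial.X + 2) + 1) +
      (Polynomial.C 4 * pG.comp (Polynomial.X * (Polynomial.C 4 * Polynomial.X + 2) + 1) + 1) +
        1 + 1) + 1, fun m => by
      unfold eB
      simp only [Polynomial.eval_add, Polynomial.eval_mul, Polynomial.eval_C, Polynomial.eval_X,
        Polynomial.eval_one, Polynomial.eval_pow, Polynomial.eval_ofNat, Polynomial.eval_comp]⟩
  refine ⟨fun z => [decide (bits (dc (unpair z).1) = (unpair z).1) &&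
    chk2 D p s pm pG V (dc (unpair z).1, dw (unpair z).2)],
    Q.comp pm + Polynomial.C 4 * s + 2, polyTime_of_poly (NPC.Poly.and
      (NPC.Poly.decide_eq (bits_poly.comp (hdcp.comp (NPC.Poly.fst poly_unpair)))
        (NPC.Poly.fst poly_unpair)) ((chk2_poly hD p s pm pG hVp).comp (NPC.Poly.pair
          (hdcp.comp (NPC.Poly.fst poly_unpair)) (hdwp.comp (NPC.Poly.snd poly_unpair))))),
    fun z => ?_⟩
  simp only [unpair_pairBits, List.cons.injEq, and_true, Bool.and_eq_true, decide_eq_true_eq]
  constructor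
  · rintro ⟨c, rfl, T, hT, hlen, hD'⟩
    choose! W hW using fun v (hv : v ∈ T) => (hVG _).1 (hT.1 v hv).1
    have hc : dc (bits c) = c := by
      simp only [hdc, unbits_bits]
      rfl
    have hmap : (T.map (fun v => (v, W v))).map Prod.fst = T := by
      rw [List.map_map]
      exact (List.map_congr_left fun x _ => rfl).trans (List.map_id T)
    obtain ⟨u, hu, huD⟩ : ∃ u : List Bool, u.length ≤ s.eval c.1.2.2.length ∧
        (c.1.2.1 = false ∨ D (c.1.2.2, (cut (p.eval c.1.2.2.length) T, u)) = true) := by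
      rcases hD' with h | ⟨w, hw, hwD⟩
      · exact ⟨[], by simp, Or.inl h⟩
      · exact ⟨w, hw, Or.inr hwD⟩
    have h6 : sz c = (sz c.1.1 + (sz c.1.2.1 + sz c.1.2.2 + 1) + 1) + sz c.2 + 1 := by
      rw [← sz_pair, ← sz_pair, ← sz_pair]
    have h4 : c.1.1.length ≤ sz c := by
      have h5 := length_lt_sz c.1.1
      omega
    have h4' : c.1.2.2.length ≤ sz c := by
      have h5 := length_lt_sz c.1.2.2
      omega
    refine ⟨bits (T.map (fun v => (v, W v)), u), ?_, by rw [hc], ?_⟩
    · rw [bits_length, bits_length, sz_pair]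
      simp only [Polynomial.eval_add, Polynomial.eval_mul, Polynomial.eval_C, Polynomial.eval_comp,
        Polynomial.eval_ofNat]
      have h1 := sz_le_length_mul (T.map (fun v => (v, W v)))
        (eB (pm.eval c.1.1.length) + (4 * pG.eval (eB (pm.eval c.1.1.length)) + 1) + 1)
          fun q hq => by
            obtain ⟨v, hv, rfl⟩ := List.mem_map.1 hq
            rw [sz_pair]
            obtain ⟨h2, h3, _⟩ := hT.1 v hv
            have h4 := entry_sz_le hG h2 h3
            have h5 := (hW v hv).1
            rw [bits_length] at h5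
            have h6 := eval_mono pG h4
            have h7 := sz_listBool_le (W v)
            omega
      rw [List.length_map] at h1
      have h2 := valid_length_le hG hT
      have h3 := Nat.mul_le_mul_right
        (eB (pm.eval c.1.1.length) + (4 * pG.eval (eB (pm.eval c.1.1.length)) + 1) + 1 + 1) h2
      have h5 := eval_mono Q (eval_mono pm h4)
      rw [hQ (pm.eval c.1.1.length)] at h5
      have h6 := sz_listBool_le u
      have h7 := eval_mono s h4'
      omega
    · have hw : dw (bits (T.map (fun v => (v, W v)), u)) = (T.map (fun v => (v, W v)), u) := by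
        simp only [hdw, unbits_bits]
        rfl
      rw [hc, hw]
      unfold chk2
      simp only [hmap, Bool.and_eq_true, List.all_eq_true, decide_eq_true_eq, Bool.or_eq_true,
        ndB_iff, List.length_map, Bool.not_eq_true', decide_eq_false_iff_not]
      refine ⟨fun q hq => ?_, hT.2, hlen, huD.imp_right fun h => ⟨hu, h⟩⟩
      obtain ⟨v, hv, rfl⟩ := List.mem_map.1 hq
      exact ⟨(hW v hv).1, (hW v hv).2, (hT.1 v hv).2.1, (hT.1 v hv).2.2⟩
  · rintro ⟨w, _, h1, h2⟩
    refine ⟨dc z, h1, (dw w).1.map Prod.fst, ⟨fun v hv => ?_, ?_⟩, ?_, ?_⟩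
    all_goals
      unfold chk2 at h2
      simp only [Bool.and_eq_true, List.all_eq_true, decide_eq_true_eq, Bool.or_eq_true,
        ndB_iff, Bool.not_eq_true', decide_eq_false_iff_not] at h2
      obtain ⟨h2, h3, h4, h5⟩ := h2
    · obtain ⟨q, hq, rfl⟩ := List.mem_map.1 hv
      obtain ⟨a1, a2, a3, a4⟩ := h2 q hq
      exact ⟨(hVG _).2 ⟨q.2, a1, a2⟩, a3, a4⟩
    · exact h3
    · rw [List.length_map]
      exact h4
    · exact h5.imp_right fun h => ⟨_, h.1, h.2⟩

/-- The algorithm. -/
def act2 (f : List Bool → List Bool) (pm : Polynomial ℕ) (y : List Bool) : List Bool :=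
  if (unpair y).2.length < tt pm (unpair (unpair y).1).1 then
    false :: bits (((unpair (unpair y).1).1, (false, ([] : List Bool))), (unpair y).2 ++ [true])
  else if (alg f (unpair (unpair y).1).1 [] ((unpair y).2.drop
      (tt pm (unpair (unpair y).1).1))).head? = some false then
    false :: bits (((unpair (unpair y).1).1, (true, (alg f (unpair (unpair y).1).1 []
      ((unpair y).2.drop (tt pm (unpair (unpair y).1).1))).tail)),
        (unpair y).2.take (tt pm (unpair (unpair y).1).1))
  else alg f (unpair (unpair y).1).1 [] ((unpair y).2.drop (tt pm (unpair (unpair y).1).1))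

theorem act2_poly {f : List Bool → List Bool} (hf : Poly f) (pm : Polynomial ℕ) :
    Poly (act2 f pm) := by
  have e1 : Poly (fun y : List Bool => (unpair (unpair y).1).1) :=
    NPC.Poly.fst (poly_unpair.comp (NPC.Poly.fst poly_unpair))
  have e2 : Poly (fun y : List Bool => (unpair y).2) := NPC.Poly.snd poly_unpair
  have e3 := (tt_upoly pm e1).toPoly
  have e4 := alg_poly hf e1 (Pool.Agent.NPC.Mix.T1.poly_drop e2 e3)
  exact NPC.Poly.ite (NPC.Poly.decide_lt (NPC.Poly.length e2) e3)
    (NPC.Poly.cons (NPC.Poly.const false) (bits_poly.comp (NPC.Poly.pair (NPC.Poly.pair e1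
      (NPC.Poly.const _)) (NPC.Poly.append e2 (NPC.Poly.const [true])))))
    (NPC.Poly.ite (NPC.Poly.decide_eq (NPC.Poly.head? e4) (NPC.Poly.const _))
      (NPC.Poly.cons (NPC.Poly.const false) (bits_poly.comp (NPC.Poly.pair (NPC.Poly.pair e1
        (NPC.Poly.pair (NPC.Poly.const true) (NPC.Poly.tail e4))) (take_poly' e2 e3)))) e4)

theorem alg_act2 (f : List Bool → List Bool) (pm : Polynomial ℕ) (x h : List Bool) :
    alg (act2 f pm) x [] h =
      if h.length < tt pm x then false :: bits ((x, (false, ([] : List Bool))), h ++ [true])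
      else if (alg f x [] (h.drop (tt pm x))).head? = some false then
        false :: bits ((x, (true, (alg f x [] (h.drop (tt pm x))).tail)), h.take (tt pm x))
      else alg f x [] (h.drop (tt pm x)) := by
  conv_lhs => unfold alg act2
  simp only [unpair_pairBits]

theorem nv_pd_self {t : ℕ} {h : List Bool} (hh : h.length = t) : nv (pd t h) = nv h := by
  rw [nv_pd hh.le, hh, Nat.sub_self, pow_zero, mul_one]

/-- **One count is enough.** -/
theorem decides_act2 (hG : ∀ z : List Bool, z ∈ G ↔ ∃ (N : ℕ) (σ : Equiv.Perm (Fin N)),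
    σ ∈ H N ∧ z = bits (vals σ)) {B : Set (List Bool)}
    {D : List Bool × (List (List ℕ) × List Bool) → Bool} {p s pm : Polynomial ℕ}
    (hDB : ∀ (x : List Bool) (T : List (List ℕ)), Comp G (p.eval x.length) T →
      (x ∈ B ↔ ∃ w : List Bool, w.length ≤ s.eval x.length ∧ D (x, (T, w)) = true))
    {f : List Bool → List Bool} {x : List Bool} {R : ℕ} {P : Prop}
    (hpm : ∀ h q : List Bool, h.length ≤ R → alg f x [] h = false :: q →
      p.eval q.length ≤ pm.eval x.length)
    (hdec : Decides (alg f x []) B R P) :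
    Decides (alg (act2 f pm) x []) (lang (Ask2 G D p s pm)) (tt pm x + R) P := by
  classical
  set t := tt pm x with ht
  obtain ⟨T, hT, hmax⟩ := exists_longest hG (pm.eval x.length)
  set K := T.length with hK
  have hKt : K < 2 ^ t := (valid_length_le hG hT).trans_lt (lt_two_pow_size _)
  have hmem : ∀ c : In × List Bool, bits c ∈ lang (Ask2 G D p s pm) ↔ Ask2 G D p s pm c :=
    fun c => bits_mem_lang
  have hcount : ∀ g : List Bool, g.length ≤ t →
      (bits ((x, (false, ([] : List Bool))), g) ∈ lang (Ask2 G D p s pm) ↔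
        nv g * 2 ^ (t - g.length) ≤ K) := by
    intro g hg
    rw [hmem, ← nv_pd hg]
    constructor
    · rintro ⟨T', h1, h2, _⟩
      exact h2.trans (hmax T' h1)
    · intro h
      exact ⟨T, hT, h, Or.inl rfl⟩
  have hstep : ∀ i ≤ t, ∃ h : List Bool, h.length = i ∧
      Correct (alg (act2 f pm) x []) (lang (Ask2 G D p s pm)) h ∧ nv h * 2 ^ (t - i) ≤ K ∧
        K < (nv h + 1) * 2 ^ (t - i) := by
    intro i
    induction i with
    | zero =>
      intro _
      refine ⟨[], rfl, fun i hi => absurd hi (Nat.not_lt_zero _), by simp [nv], ?_⟩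
      simpa [nv] using hKt
    | succ i ih =>
      intro hi
      obtain ⟨h, h1, h2, h3, h4⟩ := ih (by omega)
      have h5 : alg (act2 f pm) x [] h =
          false :: bits ((x, (false, ([] : List Bool))), h ++ [true]) := by
        rw [alg_act2, if_pos (by omega)]
      have h6 := hcount (h ++ [true]) (by
        rw [List.length_append, List.length_singleton]
        omega)
      rw [nv_concat, if_pos rfl, List.length_append, List.length_singleton, h1] at h6
      refine ⟨h ++ [decide (bits ((x, (false, ([] : List Bool))), h ++ [true]) ∈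
        lang (Ask2 G D p s pm))], by
        rw [List.length_append, List.length_singleton, h1], correct_snoc h2 h5 (by simp), ?_⟩
      have h7 : t - i = (t - (i + 1)) + 1 := by omega
      rw [h7, pow_succ] at h3 h4
      rw [nv_concat]
      by_cases h8 : bits ((x, (false, ([] : List Bool))), h ++ [true]) ∈ lang (Ask2 G D p s pm)
      · rw [decide_eq_true h8, if_pos rfl]
        have h9 := h6.1 h8
        refine ⟨h9, ?_⟩
        calc K < (nv h + 1) * (2 ^ (t - (i + 1)) * 2) := h4
          _ = _ := by ring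
      · rw [decide_eq_false h8]
        have h9 := fun h => h8 (h6.2 h)
        refine ⟨?_, ?_⟩
        · refine le_trans (le_of_eq ?_) h3
          simp only [Bool.false_eq_true, if_false]
          ring
        · simp only [Bool.false_eq_true, if_false]
          refine lt_of_lt_of_le (not_le.1 h9) (le_of_eq ?_)
          ring
  obtain ⟨d, d1, d2, d3, d4⟩ := hstep t le_rfl
  rw [Nat.sub_self, pow_zero, mul_one] at d3 d4
  have d5 : nv d = K := by omega
  -- the queries of the algorithm
  have hquery : ∀ q : List Bool, p.eval q.length ≤ pm.eval x.length →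
      (bits ((x, (true, q)), d) ∈ lang (Ask2 G D p s pm) ↔ q ∈ B) := by
    intro q hq
    rw [hmem]
    unfold Ask2
    simp only
    rw [nv_pd_self d1, d5]
    constructor
    · rintro ⟨T', a1, a2, a3⟩
      have a4 : Comp G (pm.eval x.length) T' := comp_of_max hG a1 fun T'' hT'' =>
        (hmax T'' hT'').trans a2
      exact (hDB q _ (comp_cut a4 hq)).2 (a3.resolve_left (by simp))
    · intro hx
      exact ⟨T, hT, le_rfl, Or.inr ((hDB q _ (comp_cut (comp_of_max hG hT hmax) hq)).1 hx)⟩
  obtain ⟨h, h1, h2, h3, h4⟩ := hdec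
  have hdrop : ∀ g : List Bool, (d ++ g).drop t = g := by
    intro g
    rw [← d1, List.drop_left]
  have htake : ∀ g : List Bool, (d ++ g).take t = d := by
    intro g
    rw [← d1, List.take_left]
  have hact : ∀ g q : List Bool, alg f x [] g = false :: q →
      alg (act2 f pm) x [] (d ++ g) = false :: bits ((x, (true, q)), d) := by
    intro g q hq
    rw [alg_act2, if_neg (by
      rw [List.length_append]
      omega), ← ht, hdrop, htake, hq]
    simp
  have hall : ∀ i ≤ h.length, Correct (alg (act2 f pm) x []) (lang (Ask2 G D p s pm))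
      (d ++ h.take i) := by
    intro i
    induction i with
    | zero =>
      intro _
      simpa using d2
    | succ i ih =>
      intro hi
      obtain ⟨q, h5, h6⟩ := h2 i (by omega)
      rw [List.take_succ_eq_append_getElem (by omega), ← List.append_assoc]
      refine correct_snoc (ih (by omega)) (hact _ q h5) ?_
      rw [hquery q (hpm _ q (by
        rw [List.length_take]
        omega) h5)]
      exact h6
  have hfin : alg (act2 f pm) x [] (d ++ h) = alg f x [] h := by
    rw [alg_act2, if_neg (by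
      rw [List.length_append]
      omega), ← ht, hdrop, if_neg]
    intro h5
    obtain ⟨q, h6⟩ := head?_eq.1 h5
    exact h3 q h6
  refine ⟨d ++ h, ?_, ?_, ?_, ?_⟩
  · rw [List.length_append]
    omega
  · have := hall h.length le_rfl
    rwa [List.take_length] at this
  · intro q
    rw [hfin]
    exact h3 q
  · rw [hfin]
    exact h4

theorem tt_le (pm : Polynomial ℕ) : ∃ b : ℕ, ∀ x : List Bool,
    tt pm x ≤ (b + 1) * (Nat.log 2 x.length + 1) := by
  obtain ⟨b, hb⟩ := exists_pow_add_bound (pm ^ 3)
  refine ⟨b, fun x => ?_⟩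
  have a1 := hb x.length
  rw [Polynomial.eval_pow] at a1
  have a2 : x.length < 2 ^ (Nat.log 2 x.length + 1) :=
    Nat.lt_pow_succ_log_self (by norm_num) _
  set l := Nat.log 2 x.length + 1 with hl
  have a3 : x.length ^ b ≤ 2 ^ (l * b) := by
    rw [pow_mul]
    exact Nat.pow_le_pow_left a2.le b
  have a4 : b < 2 ^ (l * b) := (Nat.lt_two_pow_self (n := b)).trans_le
    (Nat.pow_le_pow_right (by norm_num) (by
      have : 1 ≤ l := by omega
      nlinarith))
  have a5 : (pm.eval x.length) ^ 3 < 2 ^ (l * b + 1) := by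
    rw [pow_succ 2 (l * b)]
    omega
  have a6 : tt pm x ≤ l * b + 1 := Nat.size_le.2 a5
  have a7 : 1 ≤ l := by omega
  nlinarith

/-- The bound for the tables. -/
theorem exists_pm {f : List Bool → List Bool} (hf : PolyTime f) (p Rp : Polynomial ℕ) :
    ∃ pm : Polynomial ℕ, ∀ x h q : List Bool, h.length ≤ Rp.eval x.length →
      alg f x [] h = false :: q → p.eval q.length ≤ pm.eval x.length := by
  have hfp : Poly f := PIso.poly_iff.2 hf
  obtain ⟨ql, hql⟩ := PIso.length_bound hfp
  refine ⟨p.comp (ql.comp (Polynomial.C 4 * Polynomial.X + 3 + Rp)), fun x h q hh hq => ?_⟩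
  rw [Polynomial.eval_comp, Polynomial.eval_comp]
  refine eval_mono p ?_
  have h1 := hql (pairBits (pairBits x []) h)
  have h2 : f (pairBits (pairBits x []) h) = false :: q := hq
  rw [h2, List.length_cons, PIso.pairBits_length, PIso.pairBits_length, List.length_nil] at h1
  simp only [Polynomial.eval_add, Polynomial.eval_mul, Polynomial.eval_C, Polynomial.eval_X,
    Polynomial.eval_ofNat]
  have h3 : ql.eval (2 * (2 * x.length + 1 + 0) + 1 + h.length) ≤
      ql.eval (4 * x.length + 3 + Rp.eval x.length) := eval_mono ql (by omega)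
  omega

theorem inNY_of_inNP {L : Set (List Bool)} (hL : InNP L) : InNY G L := by
  obtain ⟨V, p, hV, hVL⟩ := hL
  refine ⟨fun c => decide (V (pairBits c.1 c.2.2) = [true]), 0, p, NPC.Poly.decide_eq
    ((PIso.poly_iff.2 hV : Poly V).comp (Pool.Agent.H622R2.poly_pairBits
      (NPC.Poly.fst NPC.Poly.id) (NPC.Poly.snd (NPC.Poly.snd NPC.Poly.id)))) (NPC.Poly.const _),
    fun x T _ => ?_⟩
  rw [hVL]
  simp only [decide_eq_true_eq]

/-- **Group languages and low sets.** -/
theorem low_two {G A : Set (List Bool)} (hG : GroupLang G) (hGN : InNP G) (hA : InNP A)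
    (hAc : InNPT G Aᶜ) {L : Set (List Bool)} (hL : InPNPT A L) : InPNP L := by
  obtain ⟨H, hH⟩ := hG
  obtain ⟨f, B, r, hf, hB, hdec⟩ := hL
  obtain ⟨D, p, s, hD, hDB⟩ := inNY_comp (inNY_of_inNP (G := G) hA) (inNY_of_inNPT hH hAc) hB
  obtain ⟨pm, hpm⟩ := exists_pm hf p r
  refine ⟨act2 f pm, lang (Ask2 G D p s pm), pm ^ 3 + r,
    PIso.poly_iff.1 (act2_poly (PIso.poly_iff.2 hf) pm), ask2_inNP hH hGN hD p s pm, fun x => ?_⟩
  obtain ⟨h, h1, h2⟩ := decides_act2 hH hDB (hpm x) (hdec x)
  refine ⟨h, h1.trans ?_, h2⟩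
  rw [Polynomial.eval_add, Polynomial.eval_pow]
  have : tt pm x ≤ (pm.eval x.length) ^ 3 := NPC.Poly.size_le_self _
  omega

theorem low_log {G A : Set (List Bool)} (hG : GroupLang G) (hGN : InNP G) (hA : InNP A)
    (hAc : InNPT G Aᶜ) {L : Set (List Bool)} (hL : InPNPTLog A L) : InPNPLog L := by
  obtain ⟨H, hH⟩ := hG
  obtain ⟨f, B, c, hf, hB, hdec⟩ := hL
  obtain ⟨D, p, s, hD, hDB⟩ := inNY_comp (inNY_of_inNP (G := G) hA) (inNY_of_inNPT hH hAc) hB
  obtain ⟨pm, hpm⟩ := exists_pm hf p (Polynomial.C c * (Polynomial.X + 1))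
  obtain ⟨b, hb⟩ := tt_le pm
  refine ⟨act2 f pm, lang (Ask2 G D p s pm), b + 1 + c,
    PIso.poly_iff.1 (act2_poly (PIso.poly_iff.2 hf) pm), ask2_inNP hH hGN hD p s pm, fun x => ?_⟩
  obtain ⟨h, h1, h2⟩ := decides_act2 hH hDB (fun h q hh hq => hpm x h q (hh.trans (by
    simp only [Polynomial.eval_add, Polynomial.eval_mul, Polynomial.eval_C, Polynomial.eval_X,
      Polynomial.eval_one]
    exact Nat.mul_le_mul_left c (Nat.succ_le_succ (Nat.log_le_self 2 _)))) hq) (hdec x)
  refine ⟨h, h1.trans ?_, h2⟩
  have := hb x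
  rw [add_mul]
  omega

/-- The complement of `A` is in `P^A`, hence in `NP^A`. -/
theorem compl_self (A : Set (List Bool)) : InNPT A Aᶜ := by
  have e1 : Poly (fun y : List Bool => (unpair (unpair (unpair y).1).1).1) :=
    NPC.Poly.fst (poly_unpair.comp (NPC.Poly.fst (poly_unpair.comp (NPC.Poly.fst poly_unpair))))
  have e2 : Poly (fun y : List Bool => (unpair y).2) := NPC.Poly.snd poly_unpair
  have h1 : Poly (fun y : List Bool => if (unpair y).2 = [] then
      false :: (unpair (unpair (unpair y).1).1).1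
      else if (unpair y).2 = [false] then [true] else []) :=
    NPC.Poly.ite (NPC.Poly.decide_eq e2 (NPC.Poly.const _))
      (NPC.Poly.cons (NPC.Poly.const false) e1) (NPC.Poly.ite (NPC.Poly.decide_eq e2
        (NPC.Poly.const _)) (NPC.Poly.const _) (NPC.Poly.const _))
  refine ⟨{z | (unpair z).1 ∉ A}, 0, ⟨_, 1, PIso.poly_iff.1 h1, fun z => ?_⟩, fun x => ?_⟩
  · classical
    refine ⟨[decide ((unpair z).1 ∈ A)], by simp, fun i hi => ?_, fun q => ?_, ?_⟩
    · have h2 : i = 0 := by simpa using hi
      subst h2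
      refine ⟨(unpair z).1, ?_, by simp⟩
      unfold alg
      simp [unpair_pairBits]
    · unfold alg
      simp only [unpair_pairBits]
      by_cases h2 : (unpair z).1 ∈ A <;> simp [h2]
    · unfold alg
      simp only [unpair_pairBits, Set.mem_ofPred_eq]
      by_cases h2 : (unpair z).1 ∈ A <;> simp [h2]
  · rw [Set.mem_compl_iff]
    constructor
    · intro hx
      refine ⟨[], by simp, ?_⟩
      rw [Set.mem_ofPred_eq, unpair_pairBits]
      exact hx
    · rintro ⟨w, _, hw⟩
      rw [Set.mem_ofPred_eq, unpair_pairBits] at hw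
      exact hw

end Pool.Agent.TH682.LO
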